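import Pool.Agent.R237.WM.Main

set_option autoImplicit false

namespace Pool.Agent.Results.MP_e62806_an.PrincipalH1

open Pool.Agent.R237.WM MeasureTheory

/-- There are a countably infinite group `G` which is inner amenable and not amenable and an
element `f ∈ ℤG` such that the principal algebraic action of `G` on `X_f` (which preserves the Haar
measure) is weakly mixing, `H¹(G, ℤG/ℤGf) ≠ 0`, and the principal algebraic action has a measurable
circle valued 1-cocycle which is not cohomologous to a homomorphism `G → 𝕋`.
(The proof uses `G = SL₂(ℤ) × ℤ` and `f = N_A - N_B` with `A`, `B` the cyclic subgroups of orders 4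
and 6 generated by `S` and `ST`.) -/
theorem result :
    ∃ (G : Type) (_ : Group G) (f : MonoidAlgebra ℤ G),
      Countable G ∧ Infinite G ∧ InnerAmenable G ∧ ¬ Amenable G ∧
      (∀ g : G, MeasurePreserving (dualAct (act f) g) (haar (PMod f)) (haar (PMod f))) ∧
      WeaklyMixing (act f) ∧ H1Nonzero (act f) ∧ NonTrivialCocycle (act f) :=
  ⟨GG, inferInstance, ff, inferInstance, inferInstance, innerAmenable, nonamenable, mp_dualAct ff,
    weaklyMixing_ff, h1nonzero, nonTrivial_ff⟩

end Pool.Agent.Results.MP_e62806_an.PrincipalH1
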